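import Pool.Agent.H26.EW.TargetsT

/-!
# Row SEN (MP_e21eee_nt, board EW of helper26; helper53): the cells which are seen
-/

set_option autoImplicit false

open Finset MeasureTheory

namespace Pool.Agent.H53.EW

open Pool.Agent.H24.CL Pool.Agent.H24.LV Pool.Agent.H26.ES Pool.Agent.H26.EW

/-! ### averages over the positions -/

section avg

variable {ι : Type} [Fintype ι] [DecidableEq ι] {p : ι → ℕ}

theorem avP_mono {F H : Pos p → ℝ} (h : ∀ x, F x ≤ H x) : avP F ≤ avP H := by
  unfold avP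
  exact mul_le_mul_of_nonneg_left (sum_le_sum fun x _ => h x) (by positivity)

theorem avP_nonneg {F : Pos p → ℝ} (h : ∀ x, 0 ≤ F x) : 0 ≤ avP F := by
  unfold avP
  exact mul_nonneg (by positivity) (sum_nonneg fun x _ => h x)

theorem avP_mulL (c : ℝ) (F : Pos p → ℝ) : (avP fun x => c * F x) = c * avP F := by
  unfold avP
  rw [← mul_sum]
  ring

theorem avP_addL (F H : Pos p → ℝ) : (avP fun x => F x + H x) = avP F + avP H := by
  unfold avP
  rw [sum_add_distrib]
  ring

theorem avP_const (hp : ∀ i, 0 < p i) (c : ℝ) : (avP fun _ : Pos p => c) = c := by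
  unfold avP
  have : ∀ i, Nonempty (Fin (p i)) := fun i => ⟨⟨0, hp i⟩⟩
  have h0 : (0 : ℝ) < Fintype.card (Pos p) := by exact_mod_cast Fintype.card_pos
  rw [sum_const, card_univ, nsmul_eq_mul, ← mul_assoc, inv_mul_cancel₀ h0.ne', one_mul]

end avg

/-! ### indicator functions -/

section indicator

variable {G : Type}

theorem ind_nonneg (A : Set G) (g : G) : 0 ≤ ind A g := by
  unfold ind
  split_ifs
  · exact zero_le_one
  · exact le_refl _

theorem ind_le_one (A : Set G) (g : G) : ind A g ≤ 1 := by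
  unfold ind
  split_ifs
  · exact le_refl _
  · exact zero_le_one

theorem ind_of {A : Set G} {g : G} (h : g ∈ A) : ind A g = 1 := by
  unfold ind
  rw [if_pos h]

theorem ind_not {A : Set G} {g : G} (h : g ∉ A) : ind A g = 0 := by
  unfold ind
  rw [if_neg h]

theorem ind_eq (A : Set G) : ind A = A.indicator fun _ => (1 : ℝ) := by
  funext g
  by_cases h : g ∈ A
  · rw [ind_of h, Set.indicator_of_mem h]
  · rw [ind_not h, Set.indicator_of_notMem h]

theorem ind_mul (A B : Set G) (b : G) : ind A b * ind B b = ind (A ∩ B) b := by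
  by_cases hA : b ∈ A
  · by_cases hB : b ∈ B
    · rw [ind_of hA, ind_of hB, ind_of (show b ∈ A ∩ B from ⟨hA, hB⟩), one_mul]
    · rw [ind_not hB, ind_not (show b ∉ A ∩ B from fun h => hB h.2), mul_zero]
  · rw [ind_not hA, ind_not (show b ∉ A ∩ B from fun h => hA h.1), zero_mul]

theorem ind_congr {A B : Set G} {a b : G} (h : a ∈ A ↔ b ∈ B) : ind A a = ind B b := by
  by_cases ha : a ∈ A
  · rw [ind_of ha, ind_of (h.1 ha)]
  · rw [ind_not ha, ind_not fun hb => ha (h.2 hb)]

end indicator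

variable {k : ℕ}

theorem ind_int {A : Set (X k)} (hA : MeasurableSet A) :
    Integrable (ind A) (volume : Measure (X k)) ∧ ∫ b, ind A b = volume.real A := by
  rw [ind_eq]
  refine ⟨(integrable_const (1 : ℝ)).indicator hA, ?_⟩
  rw [integral_indicator hA, setIntegral_const, smul_eq_mul, mul_one]

/-! ### sums over the labels and integrals -/

theorem int_Lb {Q : Finset ℕ} {W : WD (H26.EW.Id Q) (pp Q) (X k)} (hW : W.Ok) (i : H26.EW.Id Q)
    (r : Fin (pp Q i)) (F : X k → ℝ) (hF : Integrable F (volume : Measure (X k))) :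
    Integrable (Lb W i r F) (volume : Measure (X k)) ∧
      ∫ b, Lb W i r F b = W.N i * ∫ b, F b := by
  have h1 : ∀ κ : X k, Integrable (fun g => F (g + κ)) (volume : Measure (X k)) :=
    fun κ => hF.comp_add_right κ
  have h2 : Integrable (fun g => ∑ κ ∈ W.K i r, F (g + κ)) (volume : Measure (X k)) :=
    integrable_finsetSum _ fun κ _ => h1 κ
  have hL : (0 : ℝ) < (W.L i).card := by
    exact_mod_cast card_pos.2 ⟨0, hW.L0 i⟩
  refine ⟨h2.const_mul _, ?_⟩
  unfold Lb
  rw [integral_const_mul, integral_finsetSum _ fun κ _ => h1 κ]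
  have h3 : ∀ κ : X k, ∫ g, F (g + κ) = ∫ g, F g := fun κ => integral_add_right_eq_self F κ
  rw [sum_congr rfl fun κ _ => h3 κ, sum_const, nsmul_eq_mul, hW.card i r]
  field_simp

theorem int_SL {Q : Finset ℕ} {W : WD (H26.EW.Id Q) (pp Q) (X k)} (hW : W.Ok) (l : List (H26.EW.Id Q))
    (x : Pos (pp Q)) (F : X k → ℝ) (hF : Integrable F (volume : Measure (X k))) :
    Integrable (SL W l x F) (volume : Measure (X k)) ∧
      ∫ b, SL W l x F b = Nl W l * ∫ b, F b := by
  induction l with
  | nil =>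
    refine ⟨hF, ?_⟩
    unfold SL Nl
    rw [List.map_nil, List.prod_nil, one_mul]
  | cons i l ih =>
    have h1 := int_Lb hW i (x i) (SL W l x F) ih.1
    refine ⟨h1.1, ?_⟩
    show ∫ b, Lb W i (x i) (SL W l x F) b = _
    rw [h1.2, ih.2]
    unfold Nl
    rw [List.map_cons, List.prod_cons, mul_assoc]

/-! ### divisibility -/

theorem dvd_DS {Q : Finset ℕ} (i : H26.EW.Id Q) : i.1 ∣ DS Q := by
  unfold DS
  exact dvd_prod_of_mem _ i.2

theorem DS_pos {S : Finset ℕ} (h : ∀ p ∈ S, p.Prime) : 0 < DS S := by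
  unfold DS
  exact prod_pos fun p hp => (h p hp).pos

theorem mod_DS {S : Finset ℕ} (h : ∀ p ∈ S, p.Prime) {n n' : ℕ} (hn : ∀ p ∈ S, n % p = n' % p) :
    n % DS S = n' % DS S := by
  have h1 : (DS S : ℤ) ∣ (n' : ℤ) - n := by
    unfold DS
    rw [Nat.cast_prod]
    refine prod_dvd_of_coprime (fun p hp q hq hpq => ?_) fun p hp => ?_
    · exact Nat.isCoprime_iff_coprime.2 ((Nat.coprime_primes (h p hp) (h q hq)).2 hpq)
    · exact Nat.modEq_iff_dvd.1 (hn p hp)
  exact Nat.modEq_iff_dvd.2 h1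

theorem Sl_sub {Q : Finset ℕ} (l : List (H26.EW.Id Q)) : Sl l ⊆ Q := by
  intro p hp
  unfold Sl at hp
  rw [List.mem_toFinset, List.mem_map] at hp
  obtain ⟨i, -, rfl⟩ := hp
  exact i.2

theorem mem_Sl {Q : Finset ℕ} (l : List (H26.EW.Id Q)) (i : H26.EW.Id Q) : i.1 ∈ Sl l ↔ i ∈ l := by
  unfold Sl
  rw [List.mem_toFinset, List.mem_map]
  constructor
  · rintro ⟨j, hj, h⟩
    rwa [← Subtype.ext h]
  · intro h
    exact ⟨i, h, rfl⟩

theorem DS_mul {Q S : Finset ℕ} (h : S ⊆ Q) : DS S * DS (Q \ S) = DS Q := by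
  unfold DS
  rw [mul_comm]
  exact prod_sdiff h

/-! ### positions -/

theorem cr_mod (hCRP : T_CRP) {Q : Finset ℕ} (hQ : ∀ p ∈ Q, p.Prime) (l : List (H26.EW.Id Q))
    (x s : Pos (pp Q)) :
    cr Q (mx l x s) % DS (Q \ Sl l) = cr Q x % DS (Q \ Sl l) := by
  refine mod_DS (fun p hp => hQ p (mem_sdiff.1 hp).1) fun p hp => ?_
  obtain ⟨hp1, hp2⟩ := mem_sdiff.1 hp
  have h1 := ((hCRP Q hQ).1 (mx l x s)).2 ⟨p, hp1⟩
  have h2 := ((hCRP Q hQ).1 x).2 ⟨p, hp1⟩
  have h3 : mx l x s ⟨p, hp1⟩ = x ⟨p, hp1⟩ := by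
    unfold mx
    exact if_neg fun h => hp2 ((mem_Sl l ⟨p, hp1⟩).2 h)
  rw [h3] at h1
  exact h1.trans h2.symm

theorem card_Pos (hCRP : T_CRP) {Q : Finset ℕ} (hQ : ∀ p ∈ Q, p.Prime) :
    Fintype.card (Pos (pp Q)) = DS Q := by
  classical
  have h1 : (univ : Finset (Pos (pp Q))).image (cr Q) = range (DS Q) := by
    ext n
    rw [mem_image, mem_range]
    constructor
    · rintro ⟨x, -, rfl⟩
      exact ((hCRP Q hQ).1 x).1
    · intro hn
      obtain ⟨x, hx⟩ := (hCRP Q hQ).2.2.1 n hn
      exact ⟨x, mem_univ _, hx⟩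
  rw [← card_univ, ← card_image_of_injective _ (hCRP Q hQ).2.1, h1, card_range]

theorem fib_le (hCRP : T_CRP) {Q : Finset ℕ} (hQ : ∀ p ∈ Q, p.Prime) (l : List (H26.EW.Id Q))
    (x : Pos (pp Q)) (n : ℕ) :
    ((univ : Finset (Pos (pp Q))).filter fun s => cr Q (mx l x s) / DS (Q \ Sl l) = n).card ≤
      DS (Q \ Sl l) := by
  classical
  have hmul := DS_mul (Sl_sub l)
  have h0 : 0 < DS (Sl l) := DS_pos fun p hp => hQ p (Sl_sub l hp)
  calc _ ≤ (range (DS (Q \ Sl l))).card := by
        refine card_le_card_of_injOn (fun s => cr Q s / DS (Sl l)) ?_ ?_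
        · intro s _
          rw [mem_coe, mem_range]
          refine Nat.div_lt_of_lt_mul ?_
          rw [hmul]
          exact ((hCRP Q hQ).1 s).1
        · intro s hs s' hs' h
          rw [mem_coe, mem_filter] at hs hs'
          have h1 : cr Q (mx l x s) = cr Q (mx l x s') := by
            rw [← Nat.mod_add_div (cr Q (mx l x s)) (DS (Q \ Sl l)),
              ← Nat.mod_add_div (cr Q (mx l x s')) (DS (Q \ Sl l)), cr_mod hCRP hQ, cr_mod hCRP hQ,
              hs.2, hs'.2]
          have h2 : mx l x s = mx l x s' := (hCRP Q hQ).2.1 h1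
          have h3 : cr Q s % DS (Sl l) = cr Q s' % DS (Sl l) := by
            refine mod_DS (fun p hp => hQ p (Sl_sub l hp)) fun p hp => ?_
            have h4 : (⟨p, Sl_sub l hp⟩ : H26.EW.Id Q) ∈ l := (mem_Sl l ⟨p, Sl_sub l hp⟩).1 hp
            have h5 := congrFun h2 ⟨p, Sl_sub l hp⟩
            unfold mx at h5
            rw [if_pos h4, if_pos h4] at h5
            have h6 := ((hCRP Q hQ).1 s).2 ⟨p, Sl_sub l hp⟩
            have h7 := ((hCRP Q hQ).1 s').2 ⟨p, Sl_sub l hp⟩
            rw [h5] at h6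
            exact h6.trans h7.symm
          refine (hCRP Q hQ).2.1 ?_
          have h' : cr Q s / DS (Sl l) = cr Q s' / DS (Sl l) := h
          rw [← Nat.mod_add_div (cr Q s) (DS (Sl l)), ← Nat.mod_add_div (cr Q s') (DS (Sl l)), h3,
            h']
    _ = _ := card_range _

theorem avg_le (hCRP : T_CRP) {Q : Finset ℕ} (hQ : ∀ p ∈ Q, p.Prime) (l : List (H26.EW.Id Q))
    (x : Pos (pp Q)) (B : Finset ℕ) (F : Pos (pp Q) → ℝ)
    (hF : ∀ s, F s ≤ if cr Q (mx l x s) / DS (Q \ Sl l) ∈ B then 1 else 0) :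
    avP F ≤ (B.card : ℝ) / DS (Sl l) := by
  classical
  have hmul := DS_mul (Sl_sub l)
  have h0 : 0 < DS (Sl l) := DS_pos fun p hp => hQ p (Sl_sub l hp)
  have h0' : 0 < DS (Q \ Sl l) := DS_pos fun p hp => hQ p (mem_sdiff.1 hp).1
  refine (avP_mono hF).trans ?_
  unfold avP
  rw [card_Pos hCRP hQ, ← hmul]
  have h1 : ∑ s : Pos (pp Q), (if cr Q (mx l x s) / DS (Q \ Sl l) ∈ B then (1 : ℝ) else 0) =
      (((univ : Finset (Pos (pp Q))).filter fun s =>
        cr Q (mx l x s) / DS (Q \ Sl l) ∈ B).card : ℝ) := by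
    rw [card_filter, Nat.cast_sum]
    refine sum_congr rfl fun s _ => ?_
    split_ifs <;> simp
  have h2 : ((univ : Finset (Pos (pp Q))).filter fun s =>
        cr Q (mx l x s) / DS (Q \ Sl l) ∈ B).card ≤ B.card * DS (Q \ Sl l) := by
    have hmap : (((univ : Finset (Pos (pp Q))).filter fun s =>
        cr Q (mx l x s) / DS (Q \ Sl l) ∈ B : Finset (Pos (pp Q))) : Set (Pos (pp Q))).MapsTo
        (fun s => cr Q (mx l x s) / DS (Q \ Sl l)) (B : Set ℕ) :=
      fun s hs => (mem_filter.1 (mem_coe.1 hs)).2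
    rw [card_eq_sum_card_fiberwise hmap]
    calc _ ≤ ∑ _n ∈ B, DS (Q \ Sl l) := by
          refine sum_le_sum fun n _ => le_trans (card_le_card ?_) (fib_le hCRP hQ l x n)
          intro s hs
          rw [mem_filter] at hs ⊢
          exact ⟨mem_univ _, hs.2⟩
      _ = _ := by rw [sum_const, smul_eq_mul]
  rw [h1]
  have h3 : (((univ : Finset (Pos (pp Q))).filter fun s =>
        cr Q (mx l x s) / DS (Q \ Sl l) ∈ B).card : ℝ) ≤ B.card * DS (Q \ Sl l) := by
    exact_mod_cast h2
  have h4 : (0 : ℝ) < DS (Sl l) := by exact_mod_cast h0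
  have h5 : (0 : ℝ) < DS (Q \ Sl l) := by exact_mod_cast h0'
  rw [Nat.cast_mul]
  calc _ ≤ ((DS (Sl l) : ℝ) * DS (Q \ Sl l))⁻¹ * (B.card * DS (Q \ Sl l)) :=
        mul_le_mul_of_nonneg_left h3 (by positivity)
    _ = _ := by field_simp

theorem cnt_le (hCO : L_CO) (D E : ℕ) (hE : E ∣ D) (hD : 0 < D) (V : Set (X k)) (b : X k)
    (c : ℝ) (hc : 0 ≤ c) (B : Finset ℕ) (hB : ∀ x ∈ B, x < D ∧ phi D x b ∈ V ∧
      hd E V (phi (D / E) (x % (D / E)) b) < c) : (B.card : ℝ) ≤ c * D := by
  classical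
  obtain ⟨F, rfl⟩ := hE
  have hE0 : 0 < E := Nat.pos_of_mul_pos_right hD
  have hF0 : 0 < F := Nat.pos_of_mul_pos_left hD
  rw [Nat.mul_div_cancel_left F hE0] at hB
  have hmap : ∀ x ∈ (B : Set ℕ), x % F ∈ range F := fun x _ => mem_range.2 (Nat.mod_lt _ hF0)
  rw [card_eq_sum_card_fiberwise (f := fun x => x % F) (t := range F) hmap, Nat.cast_sum]
  have h1 : ∀ r ∈ range F, ((B.filter fun x => x % F = r).card : ℝ) ≤ c * E := by
    intro r _
    by_cases hr : hd E V (phi F r b) < c
    · have h2 : (B.filter fun x => x % F = r).card ≤ (pos E V (phi F r b)).card := by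
        refine card_le_card_of_injOn (fun x => x / F) ?_ ?_
        · intro x hx
          rw [mem_coe, mem_filter] at hx
          obtain ⟨hx1, hx2, -⟩ := hB x hx.1
          have h3 : phi E (x / F) (phi F r b) = phi (E * F) x b := by
            rw [hCO.1, ← hx.2, Nat.mod_add_div]
          unfold pos
          rw [mem_coe, mem_filter, mem_range, h3]
          exact ⟨Nat.div_lt_of_lt_mul (by rw [Nat.mul_comm]; exact hx1), hx2⟩
        · intro x hx x' hx' h
          rw [mem_coe, mem_filter] at hx hx'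
          have h' : x / F = x' / F := h
          rw [← Nat.mod_add_div x F, ← Nat.mod_add_div x' F, hx.2, hx'.2, h']
      have h3 : ((B.filter fun x => x % F = r).card : ℝ) ≤ ((pos E V (phi F r b)).card : ℝ) := by
        exact_mod_cast h2
      have hE1 : (0 : ℝ) < E := by exact_mod_cast hE0
      unfold hd at hr
      rw [div_lt_iff₀ hE1] at hr
      exact h3.trans hr.le
    · have h2 : (B.filter fun x => x % F = r) = ∅ := by
        refine filter_eq_empty_iff.2 fun x hx hxr => hr ?_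
        rw [← hxr]
        exact (hB x hx).2.2
      rw [h2, card_empty, Nat.cast_zero]
      positivity
  refine (sum_le_sum h1).trans (le_of_eq ?_)
  rw [sum_const, card_range, nsmul_eq_mul, Nat.cast_mul]
  ring

/-! ### the world of the torus -/

section torus

variable {Q : Finset ℕ} {V : Set (X k)} {Ge : ℕ → Set (X k)} {Gd : ℕ → ℕ → Set (X k)} {m : ℝ}

theorem V_meas (hMP : T_MP) (hQ : ∀ p ∈ Q, p.Prime) (hV : MeasurableSet V) (x : Pos (pp Q)) :
    MeasurableSet ((WT Q V Ge Gd m 0).V x) :=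
  (hMP k (DS Q) (cr Q x) (DS_pos hQ)).1.measurable hV

theorem Gd_meas (hMP : T_MP) (hQ : ∀ p ∈ Q, p.Prime) (hV : MeasurableSet V)
    (hG : ∀ p ∈ Q, ∀ y, MeasurableSet (Gd p y)) (i : H26.EW.Id Q) (x : Pos (pp Q)) :
    MeasurableSet ((WT Q V Ge Gd m 0).Gd i x) := by
  have h1 : 1 ≤ DS Q / i.1 := Nat.div_pos (Nat.le_of_dvd (DS_pos hQ) (dvd_DS i)) (hQ i.1 i.2).pos
  exact ((hMP k (DS Q) (cr Q x) (DS_pos hQ)).1.measurable hV).inter
    ((hMP k (DS Q / i.1) (cr Q x % (DS Q / i.1)) h1).1.measurable (hG i.1 i.2 _))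

theorem Wk_meas (hMP : T_MP) (hQ : ∀ p ∈ Q, p.Prime) (hV : MeasurableSet V)
    (hG : ∀ p ∈ Q, ∀ y, MeasurableSet (Gd p y)) (l : List (H26.EW.Id Q)) (x t : Pos (pp Q)) :
    MeasurableSet {g : X k | Wk (WT Q V Ge Gd m 0) l x t g} := by
  induction l generalizing x with
  | nil => exact V_meas (Ge := Ge) (Gd := Gd) (m := m) hMP hQ hV x
  | cons i l ih =>
    exact (Gd_meas hMP hQ hV hG i x).inter
      ((Gd_meas hMP hQ hV hG i (Function.update x i (t i))).inter
        (ih (Function.update x i (t i))))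

theorem phi_K (hCO : L_CO) (hCRP : T_CRP) (hQ : ∀ p ∈ Q, p.Prime) (x : Pos (pp Q)) (i : H26.EW.Id Q)
    (κ : X k) (hκ : κ ∈ (WT Q V Ge Gd m 0).K i (x i)) : phi (DS Q) (cr Q x) κ = 0 := by
  have hi : 1 ≤ i.1 := (hQ i.1 i.2).pos
  have h1 : phi i.1 (x i : ℕ) κ = 0 := ((hCO.2.2.2.1 k i.1 (x i : ℕ) hi).2 κ).1 hκ
  have h2 := ((hCRP Q hQ).1 x).2 i
  have h3 := hCO.1 k (DS Q / i.1) i.1 (cr Q x / i.1) (cr Q x % i.1) κ
  rw [Nat.div_mul_cancel (dvd_DS i), Nat.mod_add_div, h2, h1, map_zero] at h3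
  exact h3.symm

/-- the number of the walks which end in a set -/
theorem walk_le (hMP : T_MP) (hCO : L_CO) (hCRP : T_CRP) (hSLB : T_SLB) (hWKB : T_WKB)
    (hDRP : T_DRP) (hQ : ∀ p ∈ Q, p.Prime) (hV : MeasurableSet V)
    (hG : ∀ p ∈ Q, ∀ y, MeasurableSet (Gd p y)) (hW : (WT Q V Ge Gd m (0 : X k)).Ok)
    (l : List (H26.EW.Id Q)) (hl : l.Nodup) (x s : Pos (pp Q)) (E : Set (X k)) (hE : MeasurableSet E) :
    Nl (WT Q V Ge Gd m (0 : X k)) l * ∫ b : X k, wk (WT Q V Ge Gd m (0 : X k)) l x s b *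
      ind {b | phi (DS Q) (cr Q (mx l x s)) b ∈ E} b ≤ volume.real E := by
  obtain ⟨W, hWdef⟩ : ∃ W, W = WT Q V Ge Gd m (0 : X k) := ⟨_, rfl⟩
  obtain ⟨z, hz⟩ : ∃ z, z = mx l x s := ⟨_, rfl⟩
  rw [← hWdef] at hW ⊢
  rw [← hz]
  have hmE : MeasurableSet {b : X k | phi (DS Q) (cr Q z) b ∈ E} :=
    (hMP k (DS Q) (cr Q z) (DS_pos hQ)).1.measurable hE
  have hlr : l.reverse.Nodup := List.nodup_reverse.2 hl
  have hwk : ∀ b, wk W l x s b = wk W l.reverse z x b := by
    intro b
    refine ind_congr ?_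
    rw [hz]
    exact (hWKB (H26.EW.Id Q) (pp Q) (X k) W hW l hl x s b).2.2.2.2
  have hmW : MeasurableSet {g : X k | Wk W l.reverse z x g} := by
    rw [hWdef]
    exact Wk_meas hMP hQ hV hG _ _ _
  have hNl : Nl W l = Nl W l.reverse := by
    unfold Nl
    rw [List.map_reverse, List.prod_reverse]
  have hint : Integrable (fun b => ind {b | phi (DS Q) (cr Q z) b ∈ E} b *
      wk W l.reverse z x b) (volume : Measure (X k)) := by
    have h1 : (fun b => ind {b | phi (DS Q) (cr Q z) b ∈ E} b * wk W l.reverse z x b) =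
        ind ({b | phi (DS Q) (cr Q z) b ∈ E} ∩ {g : X k | Wk W l.reverse z x g}) := by
      funext b
      exact ind_mul _ _ b
    rw [h1]
    exact (ind_int (hmE.inter hmW)).1
  have hkey := int_SL hW l.reverse z _ hint
  have hsl : ∀ b, SL W l.reverse z (fun b => ind {b | phi (DS Q) (cr Q z) b ∈ E} b *
      wk W l.reverse z x b) b = ind {b | phi (DS Q) (cr Q z) b ∈ E} b *
        SL W l.reverse z (wk W l.reverse z x) b := by
    refine (hSLB (H26.EW.Id Q) (pp Q) (X k) W hW).2.2.2.2.1 l.reverse z (wk W l.reverse z x) _ ?_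
    intro i _ κ hκ g
    refine ind_congr ?_
    show phi (DS Q) (cr Q z) (g + κ) ∈ E ↔ phi (DS Q) (cr Q z) g ∈ E
    rw [hWdef] at hκ
    rw [map_add, phi_K hCO hCRP hQ z i κ hκ, add_zero]
  calc _ = Nl W l.reverse * ∫ b : X k, ind {b | phi (DS Q) (cr Q z) b ∈ E} b *
          wk W l.reverse z x b := by
        rw [hNl]
        congr 1
        refine integral_congr_ae (Filter.Eventually.of_forall fun b => ?_)
        show wk W l x s b * _ = _ * wk W l.reverse z x b
        rw [hwk b, mul_comm]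
    _ = ∫ b : X k, SL W l.reverse z (fun b => ind {b | phi (DS Q) (cr Q z) b ∈ E} b *
          wk W l.reverse z x b) b := hkey.2.symm
    _ ≤ ∫ b : X k, ind {b | phi (DS Q) (cr Q z) b ∈ E} b := by
        refine integral_mono hkey.1 (ind_int hmE).1 fun b => ?_
        show SL W l.reverse z _ b ≤ _
        rw [hsl b]
        have h1 := ((hDRP (H26.EW.Id Q) (pp Q) (X k) W hW).2.1 l.reverse hlr z x b).2
        calc _ ≤ ind {b | phi (DS Q) (cr Q z) b ∈ E} b * 1 :=
              mul_le_mul_of_nonneg_left (h1.trans (ind_le_one _ _)) (ind_nonneg _ _)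
          _ = _ := mul_one _
    _ = volume.real {b : X k | phi (DS Q) (cr Q z) b ∈ E} := (ind_int hmE).2
    _ = volume.real E := by
        have h1 := (hMP k (DS Q) (cr Q z) (DS_pos hQ)).2.2.measure_preimage hE.nullMeasurableSet
        show (volume {b : X k | phi (DS Q) (cr Q z) b ∈ E}).toReal = (volume E).toReal
        rw [← h1]
        rfl

/-- the pointwise inequality -/
theorem ptw (hCO : L_CO) (hCRP : T_CRP) (hWKB : T_WKB) (hQ : ∀ p ∈ Q, p.Prime)
    (hW : (WT Q V Ge Gd m (0 : X k)).Ok) (l : List (H26.EW.Id Q)) (hl : l.Nodup) (x : Pos (pp Q))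
    (U : Set (X k)) (κ : ℝ) (hκ : 0 ≤ κ)
    (hyp : ∀ b : X k, κ ≤ hd (DS (Sl l)) V b → ∃ S₁ ⊆ Sl l, ∀ x < DS (Sl l),
      κ / 2 ≤ hd (DS S₁) V (phi (DS (Sl l) / DS S₁) (x % (DS (Sl l) / DS S₁)) b) →
        phi (DS (Sl l)) x b ∈ U) (b : X k) :
    (avP fun s => wk (WT Q V Ge Gd m (0 : X k)) l x s b) ^ 2 ≤
      κ * (avP fun s => wk (WT Q V Ge Gd m (0 : X k)) l x s b) +
      2 * avP fun s => wk (WT Q V Ge Gd m (0 : X k)) l x s b *
        ind {b | phi (DS Q) (cr Q (mx l x s)) b ∈ U} b := by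
  classical
  obtain ⟨W, hWdef⟩ : ∃ W, W = WT Q V Ge Gd m (0 : X k) := ⟨_, rfl⟩
  rw [← hWdef] at hW ⊢
  obtain ⟨A, hA⟩ : ∃ A, A = DS (Q \ Sl l) := ⟨_, rfl⟩
  obtain ⟨E, hE⟩ : ∃ E, E = DS (Sl l) := ⟨_, rfl⟩
  have hmul : E * A = DS Q := by
    rw [hA, hE]
    exact DS_mul (Sl_sub l)
  have hE0 : 0 < E := by
    rw [hE]
    exact DS_pos fun p hp => hQ p (Sl_sub l hp)
  have hA0 : 0 < A := by
    rw [hA]
    exact DS_pos fun p hp => hQ p (mem_sdiff.1 hp).1
  obtain ⟨b', hb'⟩ : ∃ b', b' = phi A (cr Q x % A) b := ⟨_, rfl⟩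
  have key : ∀ s, cr Q (mx l x s) / A < E ∧
      phi E (cr Q (mx l x s) / A) b' = phi (DS Q) (cr Q (mx l x s)) b := by
    intro s
    refine ⟨?_, ?_⟩
    · refine Nat.div_lt_of_lt_mul ?_
      rw [Nat.mul_comm, hmul]
      exact ((hCRP Q hQ).1 _).1
    · have h1 := cr_mod hCRP hQ l x s
      rw [← hA] at h1
      rw [hb', hCO.1, hmul, ← h1, Nat.mod_add_div]
  obtain ⟨N, hN⟩ : ∃ N, N = avP fun s => wk W l x s b := ⟨_, rfl⟩
  obtain ⟨N', hN'⟩ : ∃ N', N' = avP fun s => wk W l x s b *
    ind {b | phi (DS Q) (cr Q (mx l x s)) b ∈ U} b := ⟨_, rfl⟩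
  rw [← hN, ← hN']
  have hw0 : ∀ s, 0 ≤ wk W l x s b := fun s => ind_nonneg _ _
  have hw1 : ∀ s, wk W l x s b ≤ 1 := fun s => ind_le_one _ _
  have hN0 : 0 ≤ N := by
    rw [hN]
    exact avP_nonneg hw0
  have hN1 : N ≤ 1 := by
    rw [hN]
    exact (avP_mono hw1).trans (le_of_eq (avP_const hW.hp 1))
  have hN'0 : 0 ≤ N' := by
    rw [hN']
    exact avP_nonneg fun s => mul_nonneg (hw0 s) (ind_nonneg _ _)
  rcases lt_or_ge N κ with h | h
  · nlinarith
  · have hVs : ∀ s, Wk W l x s b → phi (DS Q) (cr Q (mx l x s)) b ∈ V := by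
      intro s hs
      have h1 := ((hWKB (H26.EW.Id Q) (pp Q) (X k) W hW l hl x s b).2.2.2.1 hs).2
      rw [hWdef] at h1
      exact h1
    have h1 : N ≤ hd E V b' := by
      rw [hN]
      unfold hd
      rw [hE]
      refine avg_le hCRP hQ l x (pos (DS (Sl l)) V b') _ fun s => ?_
      rw [← hA, ← hE]
      by_cases hs : Wk W l x s b
      · have h2 : cr Q (mx l x s) / A ∈ pos E V b' := by
          unfold pos
          rw [mem_filter, mem_range, (key s).2]
          exact ⟨(key s).1, hVs s hs⟩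
        rw [if_pos h2]
        exact hw1 s
      · have h2 : wk W l x s b = 0 := ind_not hs
        rw [h2]
        split_ifs
        · exact zero_le_one
        · exact le_refl _
    obtain ⟨S₁, hS₁, hU⟩ := hyp b' (by rw [← hE]; exact h.trans h1)
    rw [← hE] at hU
    obtain ⟨B, hB⟩ : ∃ B : Finset ℕ, B = (range E).filter fun x' => phi E x' b' ∈ V ∧
      hd (DS S₁) V (phi (E / DS S₁) (x' % (E / DS S₁)) b') < κ / 2 := ⟨_, rfl⟩
    have hBc : (B.card : ℝ) ≤ κ / 2 * E := by
      refine cnt_le hCO E (DS S₁) ?_ hE0 V b' (κ / 2) (by positivity) B ?_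
      · rw [hE]
        unfold DS
        exact prod_dvd_prod_of_subset _ _ _ hS₁
      · intro x' hx'
        rw [hB, mem_filter, mem_range] at hx'
        exact hx'
    have h2 : (avP fun s => wk W l x s b - wk W l x s b *
        ind {b | phi (DS Q) (cr Q (mx l x s)) b ∈ U} b) ≤ κ / 2 := by
      have h3 := avg_le hCRP hQ l x B (fun s => wk W l x s b - wk W l x s b *
        ind {b | phi (DS Q) (cr Q (mx l x s)) b ∈ U} b) (fun s => by
          rw [← hA]
          by_cases hs : Wk W l x s b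
          · by_cases hu : phi (DS Q) (cr Q (mx l x s)) b ∈ U
            · rw [ind_of (show b ∈ {b | phi (DS Q) (cr Q (mx l x s)) b ∈ U} from hu), mul_one,
                sub_self]
              split_ifs
              · exact zero_le_one
              · exact le_refl _
            · have h4 : cr Q (mx l x s) / A ∈ B := by
                rw [hB, mem_filter, mem_range, (key s).2]
                refine ⟨(key s).1, hVs s hs, ?_⟩
                by_contra h5
                rw [not_lt] at h5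
                have h6 := hU _ (key s).1 h5
                rw [(key s).2] at h6
                exact hu h6
              rw [if_pos h4, ind_not (show b ∉ {b | phi (DS Q) (cr Q (mx l x s)) b ∈ U} from hu),
                mul_zero, sub_zero]
              exact hw1 s
          · have h4 : wk W l x s b = 0 := ind_not hs
            rw [h4, zero_mul, sub_zero]
            split_ifs
            · exact zero_le_one
            · exact le_refl _)
      refine h3.trans ?_
      rw [← hE]
      have hE1 : (0 : ℝ) < E := by exact_mod_cast hE0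
      rw [div_le_iff₀ hE1]
      exact hBc
    have h3 : (avP fun s => wk W l x s b - wk W l x s b *
        ind {b | phi (DS Q) (cr Q (mx l x s)) b ∈ U} b) = N - N' := by
      have h4 := avP_addL (fun s => wk W l x s b) (fun s => (-1) * (wk W l x s b *
        ind {b | phi (DS Q) (cr Q (mx l x s)) b ∈ U} b))
      rw [avP_mulL] at h4
      rw [hN, hN']
      calc _ = avP (fun s => wk W l x s b + (-1) * (wk W l x s b *
            ind {b | phi (DS Q) (cr Q (mx l x s)) b ∈ U} b)) := by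
            congr 1
            funext s
            ring
        _ = _ := by
            rw [h4]
            ring
    rw [h3] at h2
    nlinarith

end torus

/-! ### the row -/

theorem pf_SEN (hMP : T_MP) (hCO : L_CO) (h1 : T_CRP) (h2 : T_WOK) (h5 : T_SLB) (h6 : T_WKB)
    (h7 : T_DRP) : T_SEN := by
  classical
  intro k Q V Ge Gd P m τ Ω κ U l hdat hfib hVΩ hl hU hκ hyp
  have hQ : ∀ p ∈ Q, p.Prime := fun p hp => (hdat.pr p hp).1
  have hW : (WT Q V Ge Gd m (0 : X k)).Ok := h2 k Q V Ge Gd P m τ Ω hdat hfib 0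
  have hp : ∀ i, 0 < pp Q i := hW.hp
  have hNl0 : 0 ≤ Nl (WT Q V Ge Gd m (0 : X k)) l := by
    unfold Nl
    refine List.prod_nonneg fun a ha => ?_
    obtain ⟨i, -, rfl⟩ := List.mem_map.1 ha
    exact hW.hN i
  obtain ⟨W, hWdef⟩ : ∃ W, W = WT Q V Ge Gd m (0 : X k) := ⟨_, rfl⟩
  have hwalk := fun (x s : Pos (pp Q)) (E : Set (X k)) (hE : MeasurableSet E) =>
    walk_le hMP hCO h1 h5 h6 h7 hQ hdat.mV hdat.mG hW l hl x s E hE
  have hptw := ptw h1 (k := k) (hCO := hCO) (hWKB := h6) hQ hW l hl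
  have hmeas := fun x t => Wk_meas (Ge := Ge) (m := m) hMP hQ hdat.mV hdat.mG l x t
  have hWKB := h6 (H26.EW.Id Q) (pp Q) (X k) _ hW l hl
  unfold CT
  rw [← hWdef] at hW hNl0 hwalk hptw hmeas hWKB ⊢
  have hwi : ∀ x s, Integrable (fun b => wk W l x s b) (volume : Measure (X k)) :=
    fun x s => (ind_int (hmeas x s)).1
  have hmU : ∀ z : Pos (pp Q), MeasurableSet {b : X k | phi (DS Q) (cr Q z) b ∈ U} := fun z =>
    (hMP k (DS Q) (cr Q z) (DS_pos hQ)).1.measurable hU
  have hmul : ∀ (A B : Set (X k)) (b : X k), ind A b * ind B b = ind (A ∩ B) b := ind_mul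
  have hwu : ∀ x s, Integrable (fun b => wk W l x s b *
      ind {b | phi (DS Q) (cr Q (mx l x s)) b ∈ U} b) (volume : Measure (X k)) := by
    intro x s
    have h3 := (ind_int ((hmeas x s).inter (hmU (mx l x s)))).1
    refine h3.congr (Filter.Eventually.of_forall fun b => ?_)
    exact (hmul _ _ b).symm
  have hww : ∀ x s r, Integrable (fun b => wk W l x s b * wk W l x r b)
      (volume : Measure (X k)) ∧ ∫ b : X k, wk W l x s b * wk W l x r b =
        volume.real {b : X k | Wk W l x s b ∧ Wk W l x r b} := by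
    intro x s r
    have h3 := ind_int ((hmeas x s).inter (hmeas x r))
    refine ⟨h3.1.congr (Filter.Eventually.of_forall fun b => (hmul _ _ b).symm), ?_⟩
    have h4 : ∫ b : X k, wk W l x s b * wk W l x r b =
        ∫ b : X k, ind ({g | Wk W l x s g} ∩ {g | Wk W l x r g}) b :=
      integral_congr_ae (Filter.Eventually.of_forall fun b => hmul _ _ b)
    rw [h4, h3.2]
    rfl
  have hintP : ∀ F : Pos (pp Q) → X k → ℝ, (∀ s, Integrable (F s) (volume : Measure (X k))) →
      Integrable (fun b => avP fun s => F s b) (volume : Measure (X k)) ∧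
        ∫ b : X k, (avP fun s => F s b) = avP fun s => ∫ b : X k, F s b := by
    intro F hF
    unfold avP
    refine ⟨(integrable_finsetSum _ fun s _ => hF s).const_mul _, ?_⟩
    rw [integral_const_mul, integral_finsetSum _ fun s _ => hF s]
  have hx : ∀ x : Pos (pp Q), Nl W l * (avP fun s => avP fun r =>
      volume.real {b : X k | Wk W l x s b ∧ Wk W l x r b}) ≤ κ * Ω + 2 * volume.real U := by
    intro x
    have hf := hintP (fun s b => wk W l x s b) (hwi x)
    have hg := hintP (fun s b => wk W l x s b *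
      ind {b | phi (DS Q) (cr Q (mx l x s)) b ∈ U} b) (hwu x)
    have h3 : (avP fun s => avP fun r =>
        volume.real {b : X k | Wk W l x s b ∧ Wk W l x r b}) =
        ∫ b : X k, (avP fun s => wk W l x s b) ^ 2 := by
      have h4 := hintP (fun s b => avP fun r => wk W l x s b * wk W l x r b)
        (fun s => (hintP _ fun r => (hww x s r).1).1)
      calc _ = avP fun s => ∫ b : X k, (avP fun r => wk W l x s b * wk W l x r b) := by
            congr 1
            funext s
            rw [(hintP _ fun r => (hww x s r).1).2]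
            congr 1
            funext r
            exact (hww x s r).2.symm
        _ = ∫ b : X k, (avP fun s => avP fun r => wk W l x s b * wk W l x r b) := h4.2.symm
        _ = _ := by
            refine integral_congr_ae (Filter.Eventually.of_forall fun b => ?_)
            show (avP fun s => avP fun r => wk W l x s b * wk W l x r b) =
              (avP fun s => wk W l x s b) ^ 2
            have h5 : ∀ s, (avP fun r => wk W l x s b * wk W l x r b) =
                (avP fun r => wk W l x r b) * wk W l x s b := by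
              intro s
              rw [avP_mulL, mul_comm]
            simp only [h5]
            rw [avP_mulL, sq]
    have h4 : ∫ b : X k, (avP fun s => wk W l x s b) ^ 2 ≤
        κ * (avP fun s => ∫ b : X k, wk W l x s b) + 2 * avP fun s => ∫ b : X k,
          wk W l x s b * ind {b | phi (DS Q) (cr Q (mx l x s)) b ∈ U} b := by
      rw [← hf.2, ← hg.2, ← integral_const_mul, ← integral_const_mul,
        ← integral_add (hf.1.const_mul κ) (hg.1.const_mul 2)]
      have h5 : ∀ b, (avP fun s => wk W l x s b) ^ 2 ≤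
          κ * (avP fun s => wk W l x s b) + 2 * avP fun s => wk W l x s b *
            ind {b | phi (DS Q) (cr Q (mx l x s)) b ∈ U} b := fun b =>
        hptw x U κ hκ hyp b
      refine integral_mono_of_nonneg (Filter.Eventually.of_forall fun b => sq_nonneg _)
        ((hf.1.const_mul κ).add (hg.1.const_mul 2)) (Filter.Eventually.of_forall h5)
    have h5 : Nl W l * (avP fun s => ∫ b : X k, wk W l x s b) ≤ Ω := by
      rw [← avP_mulL]
      refine (avP_mono (H := fun _ => Ω) fun s => ?_).trans (le_of_eq (avP_const hp Ω))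
      refine le_trans (le_of_eq ?_) ((hwalk x s V hdat.mV).trans hVΩ)
      congr 1
      refine integral_congr_ae (Filter.Eventually.of_forall fun b => ?_)
      show wk W l x s b = wk W l x s b * _
      by_cases hs : Wk W l x s b
      · have h6 := ((hWKB x s b).2.2.2.1 hs).2
        rw [hWdef] at h6
        rw [ind_of (show b ∈ {b | phi (DS Q) (cr Q (mx l x s)) b ∈ V} from h6), mul_one]
      · have h6 : wk W l x s b = 0 := ind_not hs
        rw [h6, zero_mul]
    have h6 : Nl W l * (avP fun s => ∫ b : X k, wk W l x s b *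
        ind {b | phi (DS Q) (cr Q (mx l x s)) b ∈ U} b) ≤ volume.real U := by
      rw [← avP_mulL]
      refine (avP_mono (H := fun _ => volume.real U) fun s => ?_).trans
        (le_of_eq (avP_const hp _))
      exact hwalk x s U hU
    rw [h3]
    calc _ ≤ Nl W l * (κ * (avP fun s => ∫ b : X k, wk W l x s b) + 2 * avP fun s => ∫ b : X k,
          wk W l x s b * ind {b | phi (DS Q) (cr Q (mx l x s)) b ∈ U} b) :=
          mul_le_mul_of_nonneg_left h4 hNl0
      _ = κ * (Nl W l * (avP fun s => ∫ b : X k, wk W l x s b)) +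
          2 * (Nl W l * (avP fun s => ∫ b : X k, wk W l x s b *
            ind {b | phi (DS Q) (cr Q (mx l x s)) b ∈ U} b)) := by ring
      _ ≤ _ := by
          have := mul_le_mul_of_nonneg_left h5 hκ
          linarith
  rw [← avP_mulL]
  exact (avP_mono hx).trans (le_of_eq (avP_const hp _))

end Pool.Agent.H53.EW
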